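import Mathlib

set_option autoImplicit false

namespace Pool.Agent.Lib.MP_4cbb29_co

/-- The (non-symmetrised) edge relation of the double broom: the path on `Fin r` has the edges
`i, i + 1`; the `m` leaves `inr (inl _)` hang on path vertex `0`; the `n` leaves `inr (inr _)`
hang on path vertex `r - 1`. -/
def broomRel (r m n : ℕ) : Fin r ⊕ (Fin m ⊕ Fin n) → Fin r ⊕ (Fin m ⊕ Fin n) → Prop
  | Sum.inl i, Sum.inl j => (i : ℕ) + 1 = (j : ℕ)
  | Sum.inl i, Sum.inr (Sum.inl _) => (i : ℕ) = 0
  | Sum.inl i, Sum.inr (Sum.inr _) => (i : ℕ) + 1 = r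
  | Sum.inr _, _ => False

/-- The double broom `S^r_{m,n}` (a tree on `r + m + n` vertices when `r ≥ 1`). -/
def doubleBroom (r m n : ℕ) : SimpleGraph (Fin r ⊕ (Fin m ⊕ Fin n)) :=
  SimpleGraph.fromRel (broomRel r m n)

/-- `S(G)`: the real symmetric matrices whose off-diagonal zero pattern is that of `G`
(no condition on the diagonal). -/
def matClass {V : Type*} (G : SimpleGraph V) : Set (Matrix V V ℝ) :=
  {A | A.IsSymm ∧ ∀ i j, i ≠ j → (A i j ≠ 0 ↔ G.Adj i j)}

/-- `q(G)`: the minimum number of distinct eigenvalues of a matrix in `S(G)`. -/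
noncomputable def qMin {V : Type*} [Fintype V] [DecidableEq V] (G : SimpleGraph V) : ℕ :=
  sInf {k | ∃ A ∈ matClass G, (spectrum ℝ A).ncard = k}

/-- `G` achieves the multiplicity bipartition `[a, b]`: some matrix in `S(G)` has exactly two
distinct eigenvalues, of multiplicities `a` and `b` (dimensions of the eigenspaces). -/
def Achieves {V : Type*} [Fintype V] [DecidableEq V] (G : SimpleGraph V) (a b : ℕ) : Prop :=
  ∃ A ∈ matClass G, ∃ x y : ℝ, x ≠ y ∧ spectrum ℝ A = {x, y} ∧
    Module.finrank ℝ (Module.End.eigenspace (Matrix.toLin' A) x) = a ∧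
    Module.finrank ℝ (Module.End.eigenspace (Matrix.toLin' A) y) = b

/-- `MB(G)`: the least `k` with `1 ≤ k ≤ N / 2` such that `G` achieves `[N - k, k]`. -/
noncomputable def MB {V : Type*} [Fintype V] [DecidableEq V] (G : SimpleGraph V) : ℕ :=
  sInf {k | 1 ≤ k ∧ 2 * k ≤ Fintype.card V ∧ Achieves G (Fintype.card V - k) k}

end Pool.Agent.Lib.MP_4cbb29_co
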