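import Mathlib
import Pool.Agent.Lib.MP_4cbb29_co.Defs

set_option autoImplicit false
set_option linter.unusedTactic false
set_option linter.unreachableTactic false

namespace Pool.Agent.Lib.MP_4cbb29_co

open Matrix

/-! ### Upper bound: tight frames of three-dimensional vectors -/

section Frame

variable {V : Type*} [Fintype V] [DecidableEq V]

theorem achieves_of_frame (G : SimpleGraph V) (W : Matrix (Fin 3) V ℝ) (hW : W * Wᵀ = 1)
    (hG : ∀ i j, i ≠ j → ((Wᵀ * W) i j ≠ 0 ↔ G.Adj i j)) (h3 : 3 < Fintype.card V) :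
    Achieves G (Fintype.card V - 3) 3 := by
  set P : Matrix V V ℝ := Wᵀ * W with hP
  have hPP : P * P = P := by
    rw [hP]
    calc Wᵀ * W * (Wᵀ * W) = Wᵀ * (W * Wᵀ) * W := by simp only [Matrix.mul_assoc]
      _ = Wᵀ * W := by rw [hW, Matrix.mul_one]
  have hrankW : W.rank = 3 := by
    have h := Matrix.rank_self_mul_transpose W
    rw [hW, Matrix.rank_one] at h
    simpa using h.symm
  have hrankP : P.rank = 3 := by
    rw [hP, Matrix.rank_transpose_mul_self, hrankW]
  have hrange : Module.finrank ℝ (LinearMap.range (Matrix.toLin' P)) = 3 := by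
    rw [← hrankP]; rfl
  have hidem : ∀ v, Matrix.toLin' P (Matrix.toLin' P v) = Matrix.toLin' P v := by
    intro v
    rw [← LinearMap.comp_apply, ← Matrix.toLin'_mul, hPP]
  have hE1 : Module.End.eigenspace (Matrix.toLin' P) 1 = LinearMap.range (Matrix.toLin' P) := by
    ext v
    rw [Module.End.mem_eigenspace_iff, one_smul, LinearMap.mem_range]
    constructor
    · intro h; exact ⟨v, h⟩
    · rintro ⟨w, rfl⟩; exact hidem w
  have hE0 : Module.End.eigenspace (Matrix.toLin' P) 0 = LinearMap.ker (Matrix.toLin' P) := by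
    ext v
    rw [Module.End.mem_eigenspace_iff, zero_smul, LinearMap.mem_ker]
  have hf1 : Module.finrank ℝ (Module.End.eigenspace (Matrix.toLin' P) 1) = 3 := by
    rw [hE1, hrange]
  have hf0 : Module.finrank ℝ (Module.End.eigenspace (Matrix.toLin' P) 0)
      = Fintype.card V - 3 := by
    rw [hE0]
    have h := LinearMap.finrank_range_add_finrank_ker (Matrix.toLin' P)
    rw [hrange, Module.finrank_fintype_fun_eq_card] at h
    omega
  have hmem : ∀ x : ℝ, 0 < Module.finrank ℝ (Module.End.eigenspace (Matrix.toLin' P) x) →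
      x ∈ spectrum ℝ P := by
    intro x hx
    rw [← Matrix.spectrum_toLin', ← Module.End.hasEigenvalue_iff_mem_spectrum]
    intro h
    have h' : Module.End.eigenspace (Matrix.toLin' P) x = ⊥ := h
    rw [h'] at hx
    simp at hx
  refine ⟨P, ⟨?_, hG⟩, 0, 1, zero_ne_one, ?_, hf0, hf1⟩
  · rw [Matrix.IsSymm, hP, Matrix.transpose_mul, Matrix.transpose_transpose]
  · apply Set.Subset.antisymm
    · exact IsIdempotentElem.spectrum_subset ℝ hPP
    · intro x hx
      rcases hx with rfl | hx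
      · exact hmem 0 (by rw [hf0]; omega)
      · rw [Set.mem_singleton_iff] at hx
        subst hx
        exact hmem 1 (by rw [hf1]; norm_num)

theorem achieves_of_weighted_frame (G : SimpleGraph V) (u : V → Fin 3 → ℝ) (w : V → ℝ)
    (hw : ∀ v, 0 < w v)
    (ht : ∀ a b, ∑ v, w v * (u v a * u v b) = if a = b then 1 else 0)
    (ho : ∀ i j, i ≠ j → (∑ a, u i a * u j a ≠ 0 ↔ G.Adj i j)) (h3 : 3 < Fintype.card V) :
    Achieves G (Fintype.card V - 3) 3 := by
  refine achieves_of_frame G (Matrix.of fun a v => Real.sqrt (w v) * u v a) ?_ ?_ h3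
  · ext a b
    rw [Matrix.mul_apply, Matrix.one_apply, ← ht a b]
    refine Finset.sum_congr rfl fun v _ => ?_
    simp only [Matrix.transpose_apply, Matrix.of_apply]
    have h := Real.mul_self_sqrt (hw v).le
    calc Real.sqrt (w v) * u v a * (Real.sqrt (w v) * u v b)
        = (Real.sqrt (w v) * Real.sqrt (w v)) * (u v a * u v b) := by ring
      _ = w v * (u v a * u v b) := by rw [h]
  · intro i j hij
    rw [← ho i j hij]
    have h : (((Matrix.of fun a v => Real.sqrt (w v) * u v a)ᵀ *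
        (Matrix.of fun a v => Real.sqrt (w v) * u v a) : Matrix V V ℝ)) i j
        = (Real.sqrt (w i) * Real.sqrt (w j)) * ∑ a, u i a * u j a := by
      rw [Matrix.mul_apply, Finset.mul_sum]
      refine Finset.sum_congr rfl fun a _ => ?_
      simp only [Matrix.transpose_apply, Matrix.of_apply]
      ring
    rw [h]
    have h1 : Real.sqrt (w i) * Real.sqrt (w j) ≠ 0 :=
      mul_ne_zero (Real.sqrt_pos.mpr (hw i)).ne' (Real.sqrt_pos.mpr (hw j)).ne'
    constructor
    · intro h2 h3; exact h2 (by rw [h3, mul_zero])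
    · intro h2; exact mul_ne_zero h1 h2

end Frame

/-! ### Lower bounds -/

section Lower

variable {V : Type*} [Fintype V] [DecidableEq V]

/-- A real symmetric matrix all of whose eigenvalues lie in `{x, y}` is annihilated by
`(X - x) (X - y)`. -/
theorem mul_eq_zero_of_spectrum {A : Matrix V V ℝ} (hA : A.IsSymm) {x y : ℝ}
    (h : spectrum ℝ A ⊆ {x, y}) : (A - x • 1) * (A - y • 1) = 0 := by
  have hH : A.IsHermitian := by
    rw [Matrix.IsHermitian, Matrix.conjTranspose_eq_transpose_of_trivial]; exact hA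
  set φ := Unitary.conjStarAlgAut ℝ (Matrix V V ℝ) hH.eigenvectorUnitary with hφ
  have hs : A = φ (Matrix.diagonal (RCLike.ofReal ∘ hH.eigenvalues)) := hH.spectral_theorem
  have h1 : ∀ z : ℝ, A - z • (1 : Matrix V V ℝ)
      = φ (Matrix.diagonal (fun i => hH.eigenvalues i - z)) := by
    intro z
    have h2 : z • (1 : Matrix V V ℝ) = φ (z • 1) := by rw [map_smul, map_one]
    rw [h2]
    conv_lhs => rw [hs]
    rw [← map_sub]
    congr 1
    ext i j
    by_cases hij : i = j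
    · subst hij; simp
    · simp [Matrix.diagonal_apply_ne _ hij, Matrix.one_apply_ne hij]
  rw [h1, h1, ← map_mul, Matrix.diagonal_mul_diagonal]
  have h3 : (fun i => (hH.eigenvalues i - x) * (hH.eigenvalues i - y)) = fun _ => (0 : ℝ) := by
    funext i
    have hi : hH.eigenvalues i ∈ spectrum ℝ A := by
      rw [hH.spectrum_real_eq_range_eigenvalues]; exact ⟨i, rfl⟩
    rcases h hi with hx | hy
    · rw [hx]; ring
    · rw [Set.mem_singleton_iff] at hy; rw [hy]; ring
  rw [h3]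
  simp

theorem spectrum_nonempty_of_isSymm [Nonempty V] {A : Matrix V V ℝ} (hA : A.IsSymm) :
    (spectrum ℝ A).Nonempty := by
  have hH : A.IsHermitian := by
    rw [Matrix.IsHermitian, Matrix.conjTranspose_eq_transpose_of_trivial]; exact hA
  rw [hH.spectrum_real_eq_range_eigenvalues]
  exact Set.range_nonempty _

theorem spectrum_finite_of_isSymm {A : Matrix V V ℝ} (hA : A.IsSymm) :
    (spectrum ℝ A).Finite := by
  have hH : A.IsHermitian := by
    rw [Matrix.IsHermitian, Matrix.conjTranspose_eq_transpose_of_trivial]; exact hA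
  rw [hH.spectrum_real_eq_range_eigenvalues]
  exact Set.finite_range _

/-- A matrix in `S(G)` has at least two distinct eigenvalues as soon as `G` has an edge. -/
theorem two_le_ncard {G : SimpleGraph V} {A : Matrix V V ℝ} (hA : A ∈ matClass G) {a b : V}
    (hab : G.Adj a b) : 2 ≤ (spectrum ℝ A).ncard := by
  have : Nonempty V := ⟨a⟩
  obtain ⟨hs, hp⟩ := hA
  by_contra hlt
  have hne := spectrum_nonempty_of_isSymm hs
  have hfin := spectrum_finite_of_isSymm hs
  have h1 : (spectrum ℝ A).ncard = 1 := by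
    have := (Set.ncard_pos hfin).mpr hne
    omega
  obtain ⟨x, hx⟩ := Set.ncard_eq_one.mp h1
  have h0 := mul_eq_zero_of_spectrum hs (x := x) (y := x) (by rw [hx]; simp)
  -- the symmetric matrix `A - x` squares to zero, so it is zero
  have hT : (A - x • (1 : Matrix V V ℝ))ᵀ = A - x • 1 := by
    rw [Matrix.transpose_sub, Matrix.transpose_smul, Matrix.transpose_one]
    rw [hs]
  have h2 : A - x • (1 : Matrix V V ℝ) = 0 := by
    have h3 : (A - x • (1 : Matrix V V ℝ))ᵀ * (A - x • 1) = 0 := by rw [hT]; exact h0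
    have h4 : (A - x • (1 : Matrix V V ℝ))ᴴ * (A - x • 1) = 0 := by
      rw [Matrix.conjTranspose_eq_transpose_of_trivial]; exact h3
    exact Matrix.conjTranspose_mul_self_eq_zero.mp h4
  have h5 : A a b = 0 := by
    have h6 := congrFun (congrFun h2 a) b
    have hne' : a ≠ b := hab.ne
    simpa [Matrix.sub_apply, Matrix.smul_apply, Matrix.one_apply_ne hne'] using h6
  exact ((hp a b hab.ne).mpr hab) h5

/-- If the complement-side pattern contains the complement of an induced path on four vertices,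
then both multiplicities of a two-eigenvalue matrix are at least three. -/
theorem three_le_of_pattern {G : SimpleGraph V} {A : Matrix V V ℝ} (hA : A ∈ matClass G)
    {x y : ℝ} (hsp : spectrum ℝ A = {x, y}) {a b c d : V}
    (hab : a ≠ b) (hbc : b ≠ c) (hcd : c ≠ d)
    (nab : ¬ G.Adj a b) (nbc : ¬ G.Adj b c) (ncd : ¬ G.Adj c d)
    (ac : G.Adj a c) (bd : G.Adj b d) (ad : G.Adj a d) :
    3 ≤ Module.finrank ℝ (Module.End.eigenspace (Matrix.toLin' A) y) := by
  obtain ⟨hs, hp⟩ := hA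
  set B : Matrix V V ℝ := A - x • 1 with hB
  have hoff : ∀ i j, i ≠ j → B i j = A i j := by
    intro i j hij
    simp [hB, Matrix.sub_apply, Matrix.smul_apply, Matrix.one_apply_ne hij]
  have hz : ∀ i j, i ≠ j → ¬ G.Adj i j → B i j = 0 := by
    intro i j hij h
    rw [hoff i j hij]
    by_contra hne
    exact h ((hp i j hij).mp hne)
  have hnz : ∀ i j, G.Adj i j → B i j ≠ 0 := by
    intro i j h
    rw [hoff i j h.ne]
    exact (hp i j h.ne).mpr h
  have hBs : Bᵀ = B := by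
    rw [hB, Matrix.transpose_sub, Matrix.transpose_smul, Matrix.transpose_one, hs]
  have hBsym : ∀ i j, B i j = B j i := by
    intro i j
    have := congrFun (congrFun hBs i) j
    rw [Matrix.transpose_apply] at this
    exact this.symm
  -- `(A - y) B = 0`
  have hmul : (A - y • 1) * B = 0 :=
    mul_eq_zero_of_spectrum hs (by rw [hsp, Set.pair_comm])
  have hBB : B * B = (y - x) • B := by
    have h1 : (A - y • (1 : Matrix V V ℝ)) = B - (y - x) • 1 := by
      rw [hB]; module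
    rw [h1, Matrix.sub_mul, Matrix.smul_mul, Matrix.one_mul] at hmul
    exact sub_eq_zero.mp hmul
  -- nonzero diagonal entries
  have hdiag : ∀ i j, G.Adj i j → B i i ≠ 0 := by
    intro i j hij h0
    have h1 : (B * B) i i = 0 := by rw [hBB, Matrix.smul_apply, h0, smul_zero]
    rw [Matrix.mul_apply] at h1
    have h2 : ∀ k ∈ Finset.univ, 0 ≤ B i k * B k i := by
      intro k _
      rw [hBsym k i]; exact mul_self_nonneg _
    have h3 := (Finset.sum_eq_zero_iff_of_nonneg h2).mp h1 j (Finset.mem_univ j)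
    rw [hBsym j i] at h3
    exact hnz i j hij (mul_self_eq_zero.mp h3)
  -- the range of `B` lies in the eigenspace of `y`
  have hle : LinearMap.range (Matrix.toLin' B)
      ≤ Module.End.eigenspace (Matrix.toLin' A) y := by
    rintro _ ⟨v, rfl⟩
    rw [Module.End.mem_eigenspace_iff]
    have h1 : Matrix.toLin' ((A - y • 1) * B) v = 0 := by rw [hmul]; simp
    rw [Matrix.toLin'_mul, LinearMap.comp_apply] at h1
    rw [map_sub, map_smul, Matrix.toLin'_one, LinearMap.sub_apply, LinearMap.smul_apply,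
      LinearMap.id_apply, sub_eq_zero] at h1
    exact h1
  have hrank : B.rank ≤ Module.finrank ℝ (Module.End.eigenspace (Matrix.toLin' A) y) :=
    Submodule.finrank_mono hle
  refine le_trans ?_ hrank
  -- a nonsingular 3 x 3 submatrix
  have hsub := Matrix.rank_submatrix_le B ![a, b, c] ![b, c, d]
  refine le_trans ?_ hsub
  have hdet : (B.submatrix ![a, b, c] ![b, c, d]).det ≠ 0 := by
    rw [Matrix.det_fin_three]
    simp only [Matrix.submatrix_apply, Matrix.cons_val_zero, Matrix.cons_val_one,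
      Matrix.cons_val_two, Matrix.head_cons, Matrix.tail_cons]
    rw [hz a b hab nab, hz b c hbc nbc, hz c d hcd ncd, hBsym c b, hz b c hbc nbc]
    have h1 := hdiag b d bd
    have h2 := hdiag c a ac.symm
    have h3 := hnz a d ad
    have h4 : B a d * B b b * B c c ≠ 0 := mul_ne_zero (mul_ne_zero h3 h1) h2
    intro h5
    apply h4
    linarith
  have hunit : IsUnit (B.submatrix ![a, b, c] ![b, c, d]) := by
    rw [Matrix.isUnit_iff_isUnit_det]
    exact isUnit_iff_ne_zero.mpr hdet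
  rw [Matrix.rank_of_isUnit _ hunit]
  simp

end Lower

/-! ### The frames -/

/-- Weights of the leaves of one side: leaf `0` gets weight `c`, the other `m - 1` leaves share
the weight `c`. -/
noncomputable def leafWeight (c : ℝ) (m : ℕ) (i : Fin m) : ℝ :=
  if (i : ℕ) = 0 then c else c / ((m : ℝ) - 1)

theorem leafWeight_pos {c : ℝ} (hc : 0 < c) {m : ℕ} (hm : 1 < m) (i : Fin m) :
    0 < leafWeight c m i := by
  unfold leafWeight
  have h1 : (1 : ℝ) < (m : ℝ) := by exact_mod_cast hm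
  split_ifs
  · exact hc
  · exact div_pos hc (by linarith)

theorem sum_leafWeight (c : ℝ) {m : ℕ} (hm : 1 < m) (A B : ℝ) :
    ∑ i : Fin m, leafWeight c m i * (if (i : ℕ) = 0 then A else B) = c * (A + B) := by
  obtain ⟨k, rfl⟩ : ∃ k, m = k + 1 := ⟨m - 1, by omega⟩
  have hk : (k : ℝ) ≠ 0 := by
    have : 0 < k := by omega
    exact_mod_cast this.ne'
  rw [Fin.sum_univ_succ]
  simp only [leafWeight, Fin.val_zero, if_true, Fin.val_succ, Nat.succ_ne_zero, if_false,
    Finset.sum_const, Finset.card_univ, Fintype.card_fin, nsmul_eq_mul]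
  push_cast
  rw [add_sub_cancel_right]
  field_simp

/-- The dot product of two explicit vectors. -/
theorem dot3 (x y z x' y' z' : ℝ) :
    ∑ a : Fin 3, (![x, y, z] : Fin 3 → ℝ) a * (![x', y', z'] : Fin 3 → ℝ) a
      = x * x' + y * y' + z * z' := by
  rw [Fin.sum_univ_three]; rfl

/-- The vectors for `r = 2`. -/
def u2 (m n : ℕ) : Fin 2 ⊕ (Fin m ⊕ Fin n) → Fin 3 → ℝ
  | Sum.inl i => if (i : ℕ) = 0 then ![1, 0, 0] else ![0, 1, 0]
  | Sum.inr (Sum.inl i) => if (i : ℕ) = 0 then ![0, 1, -2] else ![0, 1, 2]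
  | Sum.inr (Sum.inr i) => if (i : ℕ) = 0 then ![1, 0, -2] else ![1, 0, 2]

/-- The weights for `r = 2`. -/
noncomputable def w2 (m n : ℕ) : Fin 2 ⊕ (Fin m ⊕ Fin n) → ℝ
  | Sum.inl _ => 7 / 8
  | Sum.inr (Sum.inl i) => leafWeight (1 / 16) m i
  | Sum.inr (Sum.inr i) => leafWeight (1 / 16) n i

/-- The vectors for `r = 3`. -/
noncomputable def u3 (m n : ℕ) : Fin 3 ⊕ (Fin m ⊕ Fin n) → Fin 3 → ℝ
  | Sum.inl i => if (i : ℕ) = 0 then ![1, 0, 0] else if (i : ℕ) = 1 then ![0, 0, 1]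
      else ![1, 1, 0]
  | Sum.inr (Sum.inl i) => if (i : ℕ) = 0 then ![0, 1, -(1 / 2)] else ![0, 1, 1 / 2]
  | Sum.inr (Sum.inr i) => if (i : ℕ) = 0 then ![1, -1, -(1 / 2)] else ![1, -1, 1 / 2]

/-- The weights for `r = 3`. -/
noncomputable def w3 (m n : ℕ) : Fin 3 ⊕ (Fin m ⊕ Fin n) → ℝ
  | Sum.inl i => if (i : ℕ) = 1 then 5 / 6 else 1 / 3
  | Sum.inr (Sum.inl i) => leafWeight (1 / 6) m i
  | Sum.inr (Sum.inr i) => leafWeight (1 / 6) n i

/-- The vectors for `r = 4`. -/
noncomputable def u4 (m n : ℕ) : Fin 4 ⊕ (Fin m ⊕ Fin n) → Fin 3 → ℝ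
  | Sum.inl i => if (i : ℕ) = 0 then ![0, 1, 1] else if (i : ℕ) = 1 then ![1, 0, 0]
      else if (i : ℕ) = 2 then ![0, 1, 0] else ![1, 0, 1]
  | Sum.inr (Sum.inl i) => if (i : ℕ) = 0 then ![-(1 / 3), -1, 1] else ![1 / 3, -1, 1]
  | Sum.inr (Sum.inr i) => if (i : ℕ) = 0 then ![-1, -(1 / 3), 1] else ![-1, 1 / 3, 1]

/-- The weights for `r = 4`. -/
noncomputable def w4 (m n : ℕ) : Fin 4 ⊕ (Fin m ⊕ Fin n) → ℝ
  | Sum.inl i => if (i : ℕ) = 0 ∨ (i : ℕ) = 3 then 1 / 4 else 17 / 36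
  | Sum.inr (Sum.inl i) => leafWeight (1 / 8) m i
  | Sum.inr (Sum.inr i) => leafWeight (1 / 8) n i

theorem tight2 {m n : ℕ} (hm : 1 < m) (hn : 1 < n) (a b : Fin 3) :
    ∑ v, w2 m n v * (u2 m n v a * u2 m n v b) = if a = b then 1 else 0 := by
  rw [Fintype.sum_sum_type, Fintype.sum_sum_type, Fin.sum_univ_two]
  have h1 : ∀ i : Fin m, w2 m n (Sum.inr (Sum.inl i)) *
      (u2 m n (Sum.inr (Sum.inl i)) a * u2 m n (Sum.inr (Sum.inl i)) b)
      = leafWeight (1 / 16) m i * (if (i : ℕ) = 0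
        then (![0, 1, -2] : Fin 3 → ℝ) a * (![0, 1, -2] : Fin 3 → ℝ) b
        else (![0, 1, 2] : Fin 3 → ℝ) a * (![0, 1, 2] : Fin 3 → ℝ) b) := by
    intro i; simp only [w2, u2]; split_ifs <;> rfl
  have h2 : ∀ i : Fin n, w2 m n (Sum.inr (Sum.inr i)) *
      (u2 m n (Sum.inr (Sum.inr i)) a * u2 m n (Sum.inr (Sum.inr i)) b)
      = leafWeight (1 / 16) n i * (if (i : ℕ) = 0
        then (![1, 0, -2] : Fin 3 → ℝ) a * (![1, 0, -2] : Fin 3 → ℝ) b
        else (![1, 0, 2] : Fin 3 → ℝ) a * (![1, 0, 2] : Fin 3 → ℝ) b) := by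
    intro i; simp only [w2, u2]; split_ifs <;> rfl
  rw [Finset.sum_congr rfl (fun i _ => h1 i), Finset.sum_congr rfl (fun i _ => h2 i),
    sum_leafWeight _ hm, sum_leafWeight _ hn]
  fin_cases a <;> fin_cases b <;> simp [w2, u2] <;> norm_num

theorem tight3 {m n : ℕ} (hm : 1 < m) (hn : 1 < n) (a b : Fin 3) :
    ∑ v, w3 m n v * (u3 m n v a * u3 m n v b) = if a = b then 1 else 0 := by
  rw [Fintype.sum_sum_type, Fintype.sum_sum_type, Fin.sum_univ_three]
  have h1 : ∀ i : Fin m, w3 m n (Sum.inr (Sum.inl i)) *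
      (u3 m n (Sum.inr (Sum.inl i)) a * u3 m n (Sum.inr (Sum.inl i)) b)
      = leafWeight (1 / 6) m i * (if (i : ℕ) = 0
        then (![0, 1, -(1 / 2)] : Fin 3 → ℝ) a * (![0, 1, -(1 / 2)] : Fin 3 → ℝ) b
        else (![0, 1, 1 / 2] : Fin 3 → ℝ) a * (![0, 1, 1 / 2] : Fin 3 → ℝ) b) := by
    intro i; simp only [w3, u3]; split_ifs <;> rfl
  have h2 : ∀ i : Fin n, w3 m n (Sum.inr (Sum.inr i)) *
      (u3 m n (Sum.inr (Sum.inr i)) a * u3 m n (Sum.inr (Sum.inr i)) b)
      = leafWeight (1 / 6) n i * (if (i : ℕ) = 0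
        then (![1, -1, -(1 / 2)] : Fin 3 → ℝ) a * (![1, -1, -(1 / 2)] : Fin 3 → ℝ) b
        else (![1, -1, 1 / 2] : Fin 3 → ℝ) a * (![1, -1, 1 / 2] : Fin 3 → ℝ) b) := by
    intro i; simp only [w3, u3]; split_ifs <;> rfl
  rw [Finset.sum_congr rfl (fun i _ => h1 i), Finset.sum_congr rfl (fun i _ => h2 i),
    sum_leafWeight _ hm, sum_leafWeight _ hn]
  fin_cases a <;> fin_cases b <;> simp [w3, u3] <;> norm_num

theorem tight4 {m n : ℕ} (hm : 1 < m) (hn : 1 < n) (a b : Fin 3) :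
    ∑ v, w4 m n v * (u4 m n v a * u4 m n v b) = if a = b then 1 else 0 := by
  rw [Fintype.sum_sum_type, Fintype.sum_sum_type, Fin.sum_univ_four]
  have h1 : ∀ i : Fin m, w4 m n (Sum.inr (Sum.inl i)) *
      (u4 m n (Sum.inr (Sum.inl i)) a * u4 m n (Sum.inr (Sum.inl i)) b)
      = leafWeight (1 / 8) m i * (if (i : ℕ) = 0
        then (![-(1 / 3), -1, 1] : Fin 3 → ℝ) a * (![-(1 / 3), -1, 1] : Fin 3 → ℝ) b
        else (![1 / 3, -1, 1] : Fin 3 → ℝ) a * (![1 / 3, -1, 1] : Fin 3 → ℝ) b) := by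
    intro i; simp only [w4, u4]; split_ifs <;> rfl
  have h2 : ∀ i : Fin n, w4 m n (Sum.inr (Sum.inr i)) *
      (u4 m n (Sum.inr (Sum.inr i)) a * u4 m n (Sum.inr (Sum.inr i)) b)
      = leafWeight (1 / 8) n i * (if (i : ℕ) = 0
        then (![-1, -(1 / 3), 1] : Fin 3 → ℝ) a * (![-1, -(1 / 3), 1] : Fin 3 → ℝ) b
        else (![-1, 1 / 3, 1] : Fin 3 → ℝ) a * (![-1, 1 / 3, 1] : Fin 3 → ℝ) b) := by
    intro i; simp only [w4, u4]; split_ifs <;> rfl
  rw [Finset.sum_congr rfl (fun i _ => h1 i), Finset.sum_congr rfl (fun i _ => h2 i),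
    sum_leafWeight _ hm, sum_leafWeight _ hn]
  fin_cases a <;> fin_cases b <;> simp [w4, u4] <;> norm_num

theorem w2_pos {m n : ℕ} (hm : 1 < m) (hn : 1 < n) (v) : 0 < w2 m n v := by
  rcases v with i | i | i
  · simp only [w2]; norm_num
  · exact leafWeight_pos (by norm_num) hm i
  · exact leafWeight_pos (by norm_num) hn i

theorem w3_pos {m n : ℕ} (hm : 1 < m) (hn : 1 < n) (v) : 0 < w3 m n v := by
  rcases v with i | i | i
  · simp only [w3]; split_ifs <;> norm_num
  · exact leafWeight_pos (by norm_num) hm i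
  · exact leafWeight_pos (by norm_num) hn i

theorem w4_pos {m n : ℕ} (hm : 1 < m) (hn : 1 < n) (v) : 0 < w4 m n v := by
  rcases v with i | i | i
  · simp only [w4]; split_ifs <;> norm_num
  · exact leafWeight_pos (by norm_num) hm i
  · exact leafWeight_pos (by norm_num) hn i

theorem compl_adj_iff (r m n : ℕ) (i j : Fin r ⊕ (Fin m ⊕ Fin n)) (hij : i ≠ j) :
    (doubleBroom r m n)ᶜ.Adj i j ↔ ¬ (broomRel r m n i j ∨ broomRel r m n j i) := by
  rw [SimpleGraph.compl_adj, doubleBroom, SimpleGraph.fromRel_adj]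
  tauto

theorem pattern2 {m n : ℕ} (i j : Fin 2 ⊕ (Fin m ⊕ Fin n)) (hij : i ≠ j) :
    (∑ a, u2 m n i a * u2 m n j a ≠ 0 ↔ (doubleBroom 2 m n)ᶜ.Adj i j) := by
  rw [compl_adj_iff 2 m n i j hij]
  rcases i with i | i | i <;> rcases j with j | j | j
  · fin_cases i <;> fin_cases j <;> simp_all [u2, broomRel, dot3]
  · fin_cases i <;> by_cases hj : (j : ℕ) = 0 <;> simp [u2, broomRel, hj, dot3] <;> norm_num
  · fin_cases i <;> by_cases hj : (j : ℕ) = 0 <;> simp [u2, broomRel, hj, dot3] <;> norm_num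
  · fin_cases j <;> by_cases hi : (i : ℕ) = 0 <;> simp [u2, broomRel, hi, dot3] <;> norm_num
  · by_cases hi : (i : ℕ) = 0 <;> by_cases hj : (j : ℕ) = 0 <;>
      simp [u2, broomRel, hi, hj, dot3] <;> norm_num
  · by_cases hi : (i : ℕ) = 0 <;> by_cases hj : (j : ℕ) = 0 <;>
      simp [u2, broomRel, hi, hj, dot3] <;> norm_num
  · fin_cases j <;> by_cases hi : (i : ℕ) = 0 <;> simp [u2, broomRel, hi, dot3] <;> norm_num
  · by_cases hi : (i : ℕ) = 0 <;> by_cases hj : (j : ℕ) = 0 <;>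
      simp [u2, broomRel, hi, hj, dot3] <;> norm_num
  · by_cases hi : (i : ℕ) = 0 <;> by_cases hj : (j : ℕ) = 0 <;>
      simp [u2, broomRel, hi, hj, dot3] <;> norm_num

theorem pattern3 {m n : ℕ} (i j : Fin 3 ⊕ (Fin m ⊕ Fin n)) (hij : i ≠ j) :
    (∑ a, u3 m n i a * u3 m n j a ≠ 0 ↔ (doubleBroom 3 m n)ᶜ.Adj i j) := by
  rw [compl_adj_iff 3 m n i j hij]
  rcases i with i | i | i <;> rcases j with j | j | j
  · fin_cases i <;> fin_cases j <;> simp_all [u3, broomRel, dot3]
  · fin_cases i <;> by_cases hj : (j : ℕ) = 0 <;> simp [u3, broomRel, hj, dot3] <;> norm_num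
  · fin_cases i <;> by_cases hj : (j : ℕ) = 0 <;> simp [u3, broomRel, hj, dot3] <;> norm_num
  · fin_cases j <;> by_cases hi : (i : ℕ) = 0 <;> simp [u3, broomRel, hi, dot3] <;> norm_num
  · by_cases hi : (i : ℕ) = 0 <;> by_cases hj : (j : ℕ) = 0 <;>
      simp [u3, broomRel, hi, hj, dot3] <;> norm_num
  · by_cases hi : (i : ℕ) = 0 <;> by_cases hj : (j : ℕ) = 0 <;>
      simp [u3, broomRel, hi, hj, dot3] <;> norm_num
  · fin_cases j <;> by_cases hi : (i : ℕ) = 0 <;> simp [u3, broomRel, hi, dot3] <;> norm_num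
  · by_cases hi : (i : ℕ) = 0 <;> by_cases hj : (j : ℕ) = 0 <;>
      simp [u3, broomRel, hi, hj, dot3] <;> norm_num
  · by_cases hi : (i : ℕ) = 0 <;> by_cases hj : (j : ℕ) = 0 <;>
      simp [u3, broomRel, hi, hj, dot3] <;> norm_num

theorem pattern4 {m n : ℕ} (i j : Fin 4 ⊕ (Fin m ⊕ Fin n)) (hij : i ≠ j) :
    (∑ a, u4 m n i a * u4 m n j a ≠ 0 ↔ (doubleBroom 4 m n)ᶜ.Adj i j) := by
  rw [compl_adj_iff 4 m n i j hij]
  rcases i with i | i | i <;> rcases j with j | j | j
  · fin_cases i <;> fin_cases j <;> simp_all [u4, broomRel, dot3]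
  · fin_cases i <;> by_cases hj : (j : ℕ) = 0 <;> simp [u4, broomRel, hj, dot3] <;> norm_num
  · fin_cases i <;> by_cases hj : (j : ℕ) = 0 <;> simp [u4, broomRel, hj, dot3] <;> norm_num
  · fin_cases j <;> by_cases hi : (i : ℕ) = 0 <;> simp [u4, broomRel, hi, dot3] <;> norm_num
  · by_cases hi : (i : ℕ) = 0 <;> by_cases hj : (j : ℕ) = 0 <;>
      simp [u4, broomRel, hi, hj, dot3] <;> norm_num
  · by_cases hi : (i : ℕ) = 0 <;> by_cases hj : (j : ℕ) = 0 <;>
      simp [u4, broomRel, hi, hj, dot3] <;> norm_num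
  · fin_cases j <;> by_cases hi : (i : ℕ) = 0 <;> simp [u4, broomRel, hi, dot3] <;> norm_num
  · by_cases hi : (i : ℕ) = 0 <;> by_cases hj : (j : ℕ) = 0 <;>
      simp [u4, broomRel, hi, hj, dot3] <;> norm_num
  · by_cases hi : (i : ℕ) = 0 <;> by_cases hj : (j : ℕ) = 0 <;>
      simp [u4, broomRel, hi, hj, dot3] <;> norm_num

theorem card_vert (r m n : ℕ) : Fintype.card (Fin r ⊕ (Fin m ⊕ Fin n)) = r + (m + n) := by
  simp

theorem achieves_three {r m n : ℕ} (hr : r = 2 ∨ r = 3 ∨ r = 4) (hm : 1 < m) (hn : 1 < n) :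
    Achieves (doubleBroom r m n)ᶜ (Fintype.card (Fin r ⊕ (Fin m ⊕ Fin n)) - 3) 3 := by
  rcases hr with rfl | rfl | rfl
  · exact achieves_of_weighted_frame _ (u2 m n) (w2 m n) (w2_pos hm hn) (tight2 hm hn) pattern2
      (by rw [card_vert]; omega)
  · exact achieves_of_weighted_frame _ (u3 m n) (w3 m n) (w3_pos hm hn) (tight3 hm hn) pattern3
      (by rw [card_vert]; omega)
  · exact achieves_of_weighted_frame _ (u4 m n) (w4 m n) (w4_pos hm hn) (tight4 hm hn) pattern4
      (by rw [card_vert]; omega)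

/-- The induced path used for the lower bound: leaf, path vertex `0`, path vertex `1`, and either
path vertex `2` (if `r ≥ 3`) or a leaf on the other side (if `r = 2`). -/
theorem exists_path {r m n : ℕ} (hr : r = 2 ∨ r = 3 ∨ r = 4) (hm : 1 < m) (hn : 1 < n) :
    ∃ a b c d : Fin r ⊕ (Fin m ⊕ Fin n), a ≠ b ∧ b ≠ c ∧ c ≠ d ∧
      ¬ (doubleBroom r m n)ᶜ.Adj a b ∧ ¬ (doubleBroom r m n)ᶜ.Adj b c ∧
      ¬ (doubleBroom r m n)ᶜ.Adj c d ∧ (doubleBroom r m n)ᶜ.Adj a c ∧
      (doubleBroom r m n)ᶜ.Adj b d ∧ (doubleBroom r m n)ᶜ.Adj a d := by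
  rcases hr with rfl | rfl | rfl
  · refine ⟨Sum.inr (Sum.inl ⟨0, by omega⟩), Sum.inl 0, Sum.inl 1,
      Sum.inr (Sum.inr ⟨0, by omega⟩), ?_⟩
    simp [SimpleGraph.compl_adj, doubleBroom, SimpleGraph.fromRel_adj, broomRel]
  · refine ⟨Sum.inr (Sum.inl ⟨0, by omega⟩), Sum.inl 0, Sum.inl 1, Sum.inl 2, ?_⟩
    simp [SimpleGraph.compl_adj, doubleBroom, SimpleGraph.fromRel_adj, broomRel]
  · refine ⟨Sum.inr (Sum.inl ⟨0, by omega⟩), Sum.inl 0, Sum.inl 1, Sum.inl 2, ?_⟩
    simp [SimpleGraph.compl_adj, doubleBroom, SimpleGraph.fromRel_adj, broomRel]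

end Pool.Agent.Lib.MP_4cbb29_co
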